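import Mathlib

/-!
Project MG (message passing programs for the permanent): definitions and the statements of the
parts.

A program keeps registers `v 0, v 1, ...` at every row of the `n × n` matrix; a step fills a new
register of every row `i` by the sum over all `k`-tuples of rows `i_1, ..., i_k` of an arbitrary
polynomial in the entries and the registers of the rows `i, i_1, ..., i_k`, or by the product over
all rows `i'` of an arbitrary polynomial in the entries and the registers of `i` and `i'`.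
-/

namespace Pool.Agent.W941.MG

open MvPolynomial

set_option autoImplicit false

/-! ### programs -/

/-- the entries and the registers of the rows `ρ a` -/
def view {R : Type} {n d : ℕ} (M : Fin n → Fin n → R) (v : ℕ → Fin n → R) (ρ : Fin d → Fin n) :
    Fin d × (Fin n ⊕ ℕ) → R
  | (a, .inl c) => M (ρ a) c
  | (a, .inr t) => v t (ρ a)

/-- The rows `i, τ 0, ..., τ (k - 1)`. -/
def rows {n k : ℕ} (i : Fin n) (τ : Fin k → Fin n) : Fin (k + 1) → Fin n := Fin.cons i τ

/-- Message passing programs, as the list of the registers (the first one first); a register is a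
polynomial for every row. -/
inductive Prog (n k : ℕ) : List (Fin n → MvPolynomial (Fin n × Fin n) ℂ) → Prop
  | nil : Prog n k []
  | sum (l : List (Fin n → MvPolynomial (Fin n × Fin n) ℂ))
      (q : MvPolynomial (Fin (k + 1) × (Fin n ⊕ ℕ)) ℂ) : Prog n k l →
      Prog n k (l ++ [fun i => ∑ τ : Fin k → Fin n,
        aeval (view (fun i c => X (i, c)) (fun t => l.getD t 0) (rows i τ)) q])
  | prod (l : List (Fin n → MvPolynomial (Fin n × Fin n) ℂ))
      (q : MvPolynomial (Fin 2 × (Fin n ⊕ ℕ)) ℂ) : Prog n k l →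
      Prog n k (l ++ [fun i => ∏ i' : Fin n,
        aeval (view (fun i c => X (i, c)) (fun t => l.getD t 0) ![i, i']) q])

/-- the generic permanent -/
noncomputable def perm (n : ℕ) : MvPolynomial (Fin n × Fin n) ℂ :=
  Matrix.permanent (Matrix.of fun i j => X (i, j))

/-- the register `w` is filled in one step from the registers `v`, for the matrix `M` over `R` -/
def Gate {R : Type} [CommRing R] [Algebra ℂ R] {n : ℕ} (k : ℕ) (M : Fin n → Fin n → R)
    (v : ℕ → Fin n → R) (w : Fin n → R) : Prop :=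
  (∃ q : MvPolynomial (Fin (k + 1) × (Fin n ⊕ ℕ)) ℂ, w = fun i => ∑ τ : Fin k → Fin n,
        aeval (view M v (rows i τ)) q) ∨
  (∃ q : MvPolynomial (Fin 2 × (Fin n ⊕ ℕ)) ℂ, w = fun i => ∏ i' : Fin n,
        aeval (view M v ![i, i']) q)

/-- SEQ: the registers as a sequence of gates, over every algebra -/
def SeqStmt : Prop := ∀ (n k : ℕ) (l : List (Fin n → MvPolynomial (Fin n × Fin n) ℂ)), Prog n k l →
    ∀ (R : Type) [CommRing R] [Algebra ℂ R] (M : Fin n → Fin n → R),
      (∀ t < l.length, Gate k M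
        (fun t' i => if t' < t then aeval (fun p => M p.1 p.2) (l.getD t' 0 i) else 0)
        (fun i => aeval (fun p => M p.1 p.2) (l.getD t 0 i)))

/-- EQV: the registers are equivariant -/
def EqvStmt : Prop := ∀ (n k : ℕ) (l : List (Fin n → MvPolynomial (Fin n × Fin n) ℂ)), Prog n k l →
    ∀ (t : ℕ) (π : Equiv.Perm (Fin n)) (i : Fin n),
      rename (fun p => (π p.1, p.2)) (l.getD t 0 i) = l.getD t 0 (π i)

/-! ### test matrices -/

/-- families of polynomials in `b` variables, parametrised by `Fin b → N` -/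
abbrev Fam (b : ℕ) (N : Type) : Type := (Fin b → N) → MvPolynomial (Fin b) ℂ

/-- the coefficients of a family -/
noncomputable def cf {b : ℕ} {N : Type} (a : Fin b →₀ ℕ) (p : Fam b N) : (Fin b → N) → ℂ :=
  fun x => coeff a (p x)

/-- The test matrix: the block `j` has the `m j` rows `ω j ^ l * X j * 1_{A j (x j)}`. -/
noncomputable def tm {b n : ℕ} {N : Type} {m : Fin b → ℕ} (e : Fin n ≃ (Σ j, Fin (m j)))
    (ω : Fin b → ℂ) (A : Fin b → N → Finset (Fin n)) (i c : Fin n) : Fam b N := fun x =>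
  if c ∈ A (e i).1 (x (e i).1) then C (ω (e i).1 ^ ((e i).2 : ℕ)) * X (e i).1 else 0

open Classical in
/-- the indicator of `C j ⊆ A j (x j)` for all `j` -/
noncomputable def ind {b n : ℕ} {N : Type} (A : Fin b → N → Finset (Fin n))
    (S : Fin b → Finset (Fin n)) : (Fin b → N) → ℂ := fun x =>
  if ∀ j, S j ⊆ A j (x j) then 1 else 0

/-- functions of degree at most `a j` in the indicators of the elements of `A j (x j)` -/
noncomputable def Fl {b n : ℕ} {N : Type} (A : Fin b → N → Finset (Fin n)) (a : Fin b →₀ ℕ) :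
    Submodule ℂ ((Fin b → N) → ℂ) :=
  Submodule.span ℂ {F | ∃ S : Fin b → Finset (Fin n), (∀ j, (S j).card ≤ a j) ∧ F = ind A S}

/-- regular families -/
def Reg {b n : ℕ} {N : Type} (A : Fin b → N → Finset (Fin n)) (p : Fam b N) : Prop :=
  ∀ a, cf a p ∈ Fl A a

/-- the part of a family in the variable `X j` alone -/
noncomputable def loc {b : ℕ} {N : Type} (j : Fin b) (p : Fam b N) : Fam b N := fun x =>
  aeval (fun j' => if j' = j then (X j' : MvPolynomial (Fin b) ℂ) else 0) (p x)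

/-- the class generated by the coefficients of the families `V κ` which are not in the variable
`X (own κ)` alone -/
noncomputable def Cls {b n : ℕ} {N K : Type} (A : Fin b → N → Finset (Fin n)) (V : K → Fam b N)
    (own : K → Fin b) (a₀ : Fin b →₀ ℕ) : Submodule ℂ ((Fin b → N) → ℂ) :=
  Submodule.span ℂ {F | ∃ κ a a' G, a + a' = a₀ ∧ ¬ (a.support ⊆ {own κ}) ∧ G ∈ Fl A a' ∧
    F = cf a (V κ) * G}

/-- the families all whose coefficients are in the class -/
def InI {b n : ℕ} {N K : Type} (A : Fin b → N → Finset (Fin n)) (V : K → Fam b N)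
    (own : K → Fin b) (p : Fam b N) : Prop :=
  ∀ a, cf a p ∈ Cls A V own a

/-- families in the variables `X j`, `j ∈ S` -/
def Vr {b : ℕ} {N : Type} (S : Finset (Fin b)) (p : Fam b N) : Prop :=
  ∀ x a, coeff a (p x) ≠ 0 → a.support ⊆ S

/-! ### parts about families -/

/-- FL: products of functions of bounded degree -/
def FlStmt : Prop := ∀ (b n : ℕ) (N : Type) (A : Fin b → N → Finset (Fin n)) (a a' : Fin b →₀ ℕ)
    (F G : (Fin b → N) → ℂ), F ∈ Fl A a → G ∈ Fl A a' → F * G ∈ Fl A (a + a')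

/-- REG: regular families form a subalgebra, and the entries of the test matrix are regular -/
def RegStmt : Prop := ∀ (b n : ℕ) (N : Type) (A : Fin b → N → Finset (Fin n)),
    (∃ B : Subalgebra ℂ (Fam b N), ∀ p, p ∈ B ↔ Reg A p) ∧
    ∀ (m : Fin b → ℕ) (e : Fin n ≃ (Σ j, Fin (m j))) (ω : Fin b → ℂ) (i c : Fin n),
      Reg A (tm e ω A i c)

/-- LOC: the local part of a family -/
def LocStmt : Prop := ∀ (b n : ℕ) (N : Type) (j : Fin b),
    (∀ (a : Fin b →₀ ℕ) (p : Fam b N), (a.support ⊆ {j} → cf a (loc j p) = cf a p) ∧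
      (¬ a.support ⊆ {j} → cf a (loc j p) = 0)) ∧
    (∀ p : Fam b N, Vr {j} (loc j p)) ∧
    ∀ (A : Fin b → N → Finset (Fin n)) (m : Fin b → ℕ) (e : Fin n ≃ (Σ j, Fin (m j)))
      (ω : Fin b → ℂ) (i c : Fin n), (e i).1 = j → loc j (tm e ω A i c) = tm e ω A i c

/-- IDL: the families in the class form an ideal for the regular families, and polynomials, sums
and products respect congruences -/
def IdlStmt : Prop := ∀ (b n : ℕ) (N K : Type) (A : Fin b → N → Finset (Fin n)) (V : K → Fam b N)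
    (own : K → Fin b),
    (InI A V own 0) ∧ (∀ p q, InI A V own p → InI A V own q → InI A V own (p + q)) ∧
    (∀ p q, InI A V own p → Reg A q → InI A V own (p * q)) ∧
    (∀ (σ : Type) (z z' : σ → Fam b N), (∀ r, Reg A (z r)) → (∀ r, Reg A (z' r)) →
      (∀ r, InI A V own (z r - z' r)) → ∀ q : MvPolynomial σ ℂ,
        InI A V own (aeval z q - aeval z' q) ∧ Reg A (aeval z q) ∧ Reg A (aeval z' q)) ∧
    (∀ (σ : Type) [Fintype σ] (z z' : σ → Fam b N), (∀ r, Reg A (z r)) → (∀ r, Reg A (z' r)) →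
      (∀ r, InI A V own (z r - z' r)) →
        InI A V own ((∑ r, z r) - ∑ r, z' r) ∧ InI A V own ((∏ r, z r) - ∏ r, z' r) ∧
        Reg A (∏ r, z' r))

/-- DIV: exponents of the values of the registers -/
def DivStmt : Prop := ∀ (b n : ℕ) (N : Type) (A : Fin b → N → Finset (Fin n)) (m : Fin b → ℕ)
    (e : Fin n ≃ (Σ j, Fin (m j))) (ω : Fin b → ℂ), (∀ j, 0 < m j) →
    (∀ j, IsPrimitiveRoot (ω j) (m j)) →
    ∀ f : Fin n → MvPolynomial (Fin n × Fin n) ℂ,
      (∀ (π : Equiv.Perm (Fin n)) (i : Fin n), rename (fun p => (π p.1, p.2)) (f i) = f (π i)) →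
      ∀ (i : Fin n) (a : Fin b →₀ ℕ) (j : Fin b), j ≠ (e i).1 → ¬ m j ∣ a j →
        cf a (aeval (fun p : Fin n × Fin n => tm e ω A p.1 p.2) (f i)) = 0

/-- SUPP: families in few variables -/
def SuppStmt : Prop := ∀ (b : ℕ) (N : Type),
    (∀ (S T : Finset (Fin b)) (p : Fam b N), S ⊆ T → Vr S p → Vr T p) ∧
    (∀ (S : Finset (Fin b)) (σ : Type) (z : σ → Fam b N) (q : MvPolynomial σ ℂ),
      (∀ r, Vr S (z r)) → Vr S (aeval z q)) ∧
    (∀ (S : Finset (Fin b)) (σ : Type) (K : Finset σ) (z : σ → Fam b N),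
      (∀ r ∈ K, Vr S (z r)) → Vr S (∏ r ∈ K, z r)) ∧
    (∀ (S : Finset (Fin b)) (p : Fam b N) (a : Fin b →₀ ℕ), Vr S p → ¬ a.support ⊆ S →
      cf a p = 0) ∧
    (∀ (p q : Fam b N) (a : Fin b →₀ ℕ), cf a (p * q) =
      ∑ c ∈ Finset.HasAntidiagonal.antidiagonal a, cf c.1 p * cf c.2 q)

/-- DIAG: the coefficient of the permanent of the test matrix -/
def DiagStmt : Prop := ∀ (b n : ℕ) (N : Type) (A : Fin b → N → Finset (Fin n)) (m : Fin b → ℕ)
    (e : Fin n ≃ (Σ j, Fin (m j))) (ω : Fin b → ℂ) (M : Fin b →₀ ℕ), (∀ j, M j = m j) →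
    (∀ j, ω j ≠ 0) → (∀ j y, (A j y).card = m j) → ∀ x : Fin b → N,
      cf M (aeval (fun p : Fin n × Fin n => tm e ω A p.1 p.2) (perm n)) x ≠ 0 ↔
        ∀ i j, i ≠ j → Disjoint (A i (x i)) (A j (x j))

/-- RANK: a function with diagonal support is not in the span of few products -/
def RankStmt : Prop := ∀ (b n : ℕ) (N K : Type) [Fintype N] [Fintype K]
    (A : Fin (b + 1) → N → Finset (Fin n)) (M : Fin (b + 1) →₀ ℕ) (D : ℕ)
    (f : (Fin (b + 1) → N) → ℂ) (j : K → Fin (b + 1)) (a a' : K → (Fin (b + 1) →₀ ℕ))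
    (F : K → (Fin (b + 1) → N) → ℂ),
    (∀ x, f x ≠ 0 ↔ ∀ i j, x i = x j) →
    (∀ i, (Finset.univ.filter fun S : Finset (Fin n) => S.card ≤ M i / 2).card ≤ D) →
    (∀ κ, a κ + a' κ = M) → (∀ κ, F κ ∈ Fl A (a κ)) →
    (∀ κ i, i ≠ j κ → a κ i = 0 ∨ a' κ i = 0) →
    (∀ κ, ∃ i, i ≠ j κ ∧ a κ i ≠ 0) → (∀ κ, ∃ i, a κ i = 0) →
    f ∈ Submodule.span ℂ {f | ∃ κ G, G ∈ Fl A (a' κ) ∧ f = F κ * G} →
    Fintype.card N ≤ Fintype.card K * D

/-! ### parts about set families -/

/-- ordered partitions of `Fin (b * m)` into `b` classes of size `m` -/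
def Bal (b m : ℕ) (f : Fin (b * m) → Fin b) : Prop :=
  ∀ j, (Finset.univ.filter fun c => f c = j).card = m

/-- `B` has no nontrivial solution of `y_1 + ... + y_K = K z` -/
def AvgFree {V : Type} [AddCommGroup V] (K : ℕ) (B : Finset V) : Prop :=
  ∀ (y : Fin K → V) (z : V), (∀ j, y j ∈ B) → z ∈ B → ∑ j, y j = K • z → ∀ j, y j = z

/-- AVG: large average free sets -/
def AvgStmt : Prop := ∀ K d D : ℕ, 1 ≤ K → 1 ≤ d → 1 ≤ D → ∃ B : Finset (Fin d → ZMod (K * D + 1)),
    AvgFree K B ∧ D ^ d ≤ B.card * (d * D ^ 2 + 1)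

/-- KER: the number of weights which give the classes of `f` and `g` the same sums; `ρ` is constant
exactly on the classes of indices linked by `f c ∼ g c` -/
def KerStmt : Prop := ∀ (b n : ℕ) (V : Type) [AddCommGroup V] [Fintype V] [DecidableEq V]
    (f g : Fin n → Fin b) (ρ : Fin b → Fin b),
    (∀ i j, ρ i = ρ j ↔ Relation.EqvGen (fun i j => ∃ c, f c = i ∧ g c = j) i j) →
    (Finset.univ.filter fun w : Fin n → V => ∀ j,
      ∑ c ∈ Finset.univ.filter (fun c => f c = j), w c =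
      ∑ c ∈ Finset.univ.filter (fun c => g c = j), w c).card *
      Fintype.card V ^ (b - (Finset.univ.image ρ).card) ≤ Fintype.card V ^ n

open Classical in
/-- PAIRS: few pairs of partitions which share a class survive -/
def PairsStmt : Prop := ∀ (b m : ℕ) (V : Type) [AddCommGroup V] [Fintype V], 1 ≤ m →
    (∀ r, 2 ≤ r → r ≤ b - 1 → 4 * b ^ b * r ^ (r * m) ≤ Fintype.card V ^ (r - 1)) →
    ∀ f : Fin (b * m) → Fin b, Bal b m f →
      4 * ∑ g ∈ Finset.univ.filter (fun g : Fin (b * m) → Fin b => Bal b m g ∧ g ≠ f ∧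
          ∃ j, ∀ c, g c = j ↔ f c = j),
        (Finset.univ.filter fun w : Fin (b * m) → V => ∀ j,
          ∑ c ∈ Finset.univ.filter (fun c => f c = j), w c =
          ∑ c ∈ Finset.univ.filter (fun c => g c = j), w c).card ≤
      Fintype.card V ^ (b * m)

/-- a set of ordered partitions from whose classes no further ordered partition can be formed -/
def Diag (b m : ℕ) (I : Finset (Fin (b * m) → Fin b)) : Prop :=
  (∀ f ∈ I, Bal b m f) ∧ ∀ g, Bal b m g → ∀ F : Fin b → (Fin (b * m) → Fin b), (∀ j, F j ∈ I) →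
    (∀ j c, g c = j ↔ F j c = j) → ∀ j, F j = g

open Classical in
/-- SEL: the selection -/
def SelStmt : Prop := ∀ (K m : ℕ) (V : Type) [AddCommGroup V] [Fintype V] (B : Finset V),
    AvgFree K B →
    (∀ f : Fin ((K + 1) * m) → Fin (K + 1), Bal (K + 1) m f →
      4 * ∑ g ∈ Finset.univ.filter (fun g : Fin ((K + 1) * m) → Fin (K + 1) => Bal (K + 1) m g ∧
          g ≠ f ∧ ∃ j, ∀ c, g c = j ↔ f c = j),
        (Finset.univ.filter fun w : Fin ((K + 1) * m) → V => ∀ j,
          ∑ c ∈ Finset.univ.filter (fun c => f c = j), w c =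
          ∑ c ∈ Finset.univ.filter (fun c => g c = j), w c).card ≤
      Fintype.card V ^ ((K + 1) * m)) →
    ∃ I : Finset (Fin ((K + 1) * m) → Fin (K + 1)), Diag (K + 1) m I ∧
      B.card * (Finset.univ.filter fun f : Fin ((K + 1) * m) → Fin (K + 1) => Bal (K + 1) m f).card ≤
        2 * Fintype.card V ^ K * I.card

open Classical in
/-- MULT: the number of balanced maps -/
def MultStmt : Prop := ∀ K m : ℕ, 1 ≤ K → 1 ≤ m →
    Nat.choose ((K + 1) * m) m * K ^ (K * m) ≤ (K * m + 1) ^ K *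
      (Finset.univ.filter fun f : Fin ((K + 1) * m) → Fin (K + 1) => Bal (K + 1) m f).card

/-- ASY: large diagonal sets of ordered partitions -/
def BigDiagStmt : Prop := ∀ K : ℕ, 2 ≤ K → ∀ δ : ℝ, 0 < δ → ∃ m₀ : ℕ, ∀ m ≥ m₀,
    ∃ I : Finset (Fin ((K + 1) * m) → Fin (K + 1)), Diag (K + 1) m I ∧
      (2 : ℝ) ^ (-δ * m) * (Nat.choose ((K + 1) * m) m : ℝ) ≤ (I.card : ℝ)

/-- FAM: from ordered partitions to set families on `Fin n` -/
def FamStmt : Prop := ∀ (K m r n : ℕ) (I : Finset (Fin ((K + 1) * m) → Fin (K + 1))),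
    1 ≤ K → 1 ≤ m → Diag (K + 1) m I → r ≤ K → n = (K + 1) * m + r →
    ∃ (N : Type) (_ : Fintype N) (M : Fin (K + 1) → ℕ)
      (A : Fin (K + 1) → N → Finset (Fin n)), Fintype.card N = I.card ∧ (∑ j, M j = n) ∧
      (∀ j, M j = m ∨ M j = m + 1) ∧ (∀ j y, (A j y).card = M j) ∧
      ∀ x : Fin (K + 1) → N, (∀ i j, i ≠ j → Disjoint (A i (x i)) (A j (x j))) ↔
        ∀ i j, x i = x j

/-- FIN: the final estimate -/
def FinStmt : Prop := ∀ K : ℕ, 2 ≤ K → ∀ δ : ℝ, 0 < δ → ∃ n₀ : ℕ, ∀ n ≥ n₀, ∀ m : ℕ,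
    m = n / (K + 1) → ∀ (N D s : ℕ),
      (2 : ℝ) ^ (-(δ / 2) * m) * (Nat.choose ((K + 1) * m) m : ℝ) ≤ (N : ℝ) →
      (D : ℝ) = ∑ i ∈ Finset.range ((m + 1) / 2 + 1), (Nat.choose n i : ℝ) →
      N ≤ 2 ^ (K + 3) * n ^ 2 * s * D →
      (2 : ℝ) ^ (-δ * n) * (K : ℝ) ^ ((n : ℝ) / (2 * (K + 1))) ≤ (s : ℝ)

end Pool.Agent.W941.MG
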