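import Mathlib
import Pool.Agent.W941.MG.Stm

/-! Project MG: the recursion. -/

namespace Pool.Agent.W941.MG

open MvPolynomial Finset

set_option autoImplicit false
set_option linter.unusedSectionVars false
set_option linter.unusedVariables false

theorem one_mem_Fl {b n : ℕ} {N : Type} (A : Fin b → N → Finset (Fin n)) :
    (1 : (Fin b → N) → ℂ) ∈ Fl A 0 := by
  refine Submodule.subset_span ⟨fun _ => ∅, fun j => by simp, ?_⟩
  funext x
  simp [ind]

theorem cf_sub {b : ℕ} {N : Type} (a : Fin b →₀ ℕ) (p q : Fam b N) :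
    cf a (p - q) = cf a p - cf a q := by
  funext x; simp [cf]

theorem cf_add {b : ℕ} {N : Type} (a : Fin b →₀ ℕ) (p q : Fam b N) :
    cf a (p + q) = cf a p + cf a q := by
  funext x; simp [cf]

theorem loc_zero {b : ℕ} {N : Type} (j : Fin b) : loc j (0 : Fam b N) = 0 := by
  funext x; simp [loc]

section

variable {b n : ℕ} {N : Type} (A : Fin b → N → Finset (Fin n)) {m : Fin b → ℕ}
  (e : Fin n ≃ (Σ j, Fin (m j))) (ω : Fin b → ℂ)

theorem reg_loc (hL : LocStmt) (j : Fin b) (p : Fam b N) (hp : Reg A p) : Reg A (loc j p) := by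
  intro a
  by_cases h : a.support ⊆ {j}
  · rw [((hL b n N j).1 a p).1 h]; exact hp a
  · rw [((hL b n N j).1 a p).2 h]; exact Submodule.zero_mem _

theorem locdiff (hL : LocStmt) {K : Type} (V : K → Fam b N) (own : K → Fin b) (κ : K) :
    InI A V own (V κ - loc (own κ) (V κ)) := by
  intro a
  rw [cf_sub]
  by_cases h : a.support ⊆ {own κ}
  · rw [((hL b n N (own κ)).1 a (V κ)).1 h, sub_self]; exact Submodule.zero_mem _
  · rw [((hL b n N (own κ)).1 a (V κ)).2 h, sub_zero]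
    exact Submodule.subset_span ⟨κ, a, 0, 1, add_zero a, h, one_mem_Fl A, (mul_one _).symm⟩

/-- the local version of a view -/
noncomputable def zl (v : ℕ → Fin n → Fam b N) {d : ℕ} (ρ : Fin d → Fin n) :
    Fin d × (Fin n ⊕ ℕ) → Fam b N := fun p =>
  loc (e (ρ p.1)).1 (view (tm e ω A) v ρ p)

/-- the registers before time `t` -/
noncomputable def bef (v : ℕ → Fin n → Fam b N) (t : ℕ) : ℕ → Fin n → Fam b N := fun t' i =>
  if t' < t then v t' i else 0

variable (v : ℕ → Fin n → Fam b N) (t : ℕ)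

theorem view_reg (hR : RegStmt) (hv : ∀ t i, Reg A (v t i)) {d : ℕ} (ρ : Fin d → Fin n)
    (p : Fin d × (Fin n ⊕ ℕ)) : Reg A (view (tm e ω A) (bef v t) ρ p) := by
  obtain ⟨⟨B, hB⟩, h2⟩ := hR b n N A
  obtain ⟨a, c | t'⟩ := p
  · exact h2 m e ω (ρ a) c
  · show Reg A (bef v t t' (ρ a))
    unfold bef
    split_ifs
    · exact hv _ _
    · rw [← hB]; exact B.zero_mem

theorem view_diff (hL : LocStmt) (hI : IdlStmt) {d : ℕ} (ρ : Fin d → Fin n)
    (p : Fin d × (Fin n ⊕ ℕ)) :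
    InI A (fun κ : Fin t × Fin n => v κ.1 κ.2) (fun κ => (e κ.2).1)
      (view (tm e ω A) (bef v t) ρ p - zl A e ω (bef v t) ρ p) := by
  obtain ⟨h0, -⟩ := hI b n N (Fin t × Fin n) A (fun κ : Fin t × Fin n => v κ.1 κ.2)
    (fun κ => (e κ.2).1)
  obtain ⟨a, c | t'⟩ := p
  · have := (hL b n N (e (ρ a)).1).2.2 A m e ω (ρ a) c rfl
    show InI A _ _ (tm e ω A (ρ a) c - loc (e (ρ a)).1 (tm e ω A (ρ a) c))
    rw [this, sub_self]; exact h0
  · show InI A _ _ (bef v t t' (ρ a) - loc (e (ρ a)).1 (bef v t t' (ρ a)))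
    unfold bef
    split_ifs with h
    · exact locdiff A hL (fun κ : Fin t × Fin n => v κ.1 κ.2) (fun κ => (e κ.2).1) (⟨t', h⟩, ρ a)
    · rw [loc_zero, sub_self]; exact h0

theorem zl_vr (hL : LocStmt) {d : ℕ} (ρ : Fin d → Fin n) (p : Fin d × (Fin n ⊕ ℕ)) :
    Vr {(e (ρ p.1)).1} (zl A e ω v ρ p) := (hL b n N _).2.1 _

theorem zl_reg (hR : RegStmt) (hL : LocStmt) (hv : ∀ t i, Reg A (v t i)) {d : ℕ}
    (ρ : Fin d → Fin n) (p : Fin d × (Fin n ⊕ ℕ)) : Reg A (zl A e ω (bef v t) ρ p) :=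
  reg_loc A hL _ _ (view_reg A e ω v t hR hv ρ p)

/-- the sum gates -/
theorem gate_sum (hR : RegStmt) (hL : LocStmt) (hI : IdlStmt) (hS : SuppStmt) {k : ℕ}
    (hk : k + 1 < b) (hv : ∀ t i, Reg A (v t i))
    (q : MvPolynomial (Fin (k + 1) × (Fin n ⊕ ℕ)) ℂ) (i : Fin n) :
    ∃ L : Fam b N, InI A (fun κ : Fin t × Fin n => v κ.1 κ.2) (fun κ => (e κ.2).1)
      ((∑ τ : Fin k → Fin n, aeval (view (tm e ω A) (bef v t) (rows i τ)) q) - L) ∧
      ∀ a : Fin b →₀ ℕ, a.support = univ → cf a L = 0 := by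
  classical
  obtain ⟨s1, s2, s3, s4, s5⟩ := hS b N
  obtain ⟨h0, h1, h2, h3, h4⟩ := hI b n N (Fin t × Fin n) A (fun κ : Fin t × Fin n => v κ.1 κ.2)
    (fun κ => (e κ.2).1)
  refine ⟨∑ τ : Fin k → Fin n, aeval (zl A e ω (bef v t) (rows i τ)) q, ?_, ?_⟩
  · have h5 := fun τ : Fin k → Fin n => h3 _ (view (tm e ω A) (bef v t) (rows i τ))
      (zl A e ω (bef v t) (rows i τ)) (view_reg A e ω v t hR hv _)
      (zl_reg A e ω v t hR hL hv _) (view_diff A e ω v t hL hI _) q
    exact (h4 _ (fun τ : Fin k → Fin n => aeval (view (tm e ω A) (bef v t) (rows i τ)) q)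
      (fun τ => aeval (zl A e ω (bef v t) (rows i τ)) q) (fun τ => (h5 τ).2.1)
      (fun τ => (h5 τ).2.2) (fun τ => (h5 τ).1)).1
  · intro a ha
    have h5 : ∀ τ : Fin k → Fin n, cf a (aeval (zl A e ω (bef v t) (rows i τ)) q) = 0 := by
      intro τ
      set J : Finset (Fin b) := (univ : Finset (Fin (k + 1))).image fun p => (e (rows i τ p)).1
      refine s4 J _ a (s2 J _ _ q fun p => s1 _ J _ ?_ (zl_vr A e ω (bef v t) hL _ p)) ?_
      · intro j hj
        rw [mem_singleton] at hj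
        rw [hj]; exact mem_image_of_mem _ (mem_univ p.1)
      · rw [ha]
        intro h6
        have h7 := card_le_card h6
        have h8 : J.card ≤ k + 1 := (card_image_le).trans (by simp)
        rw [card_univ, Fintype.card_fin] at h7
        omega
    have h6 : cf a (∑ τ : Fin k → Fin n, aeval (zl A e ω (bef v t) (rows i τ)) q) =
        ∑ τ : Fin k → Fin n, cf a (aeval (zl A e ω (bef v t) (rows i τ)) q) := by
      funext x
      simp only [cf, Finset.sum_apply, coeff_sum]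
    rw [h6]
    exact Finset.sum_eq_zero fun τ _ => h5 τ

/-- the product gates -/
theorem gate_prod (hR : RegStmt) (hL : LocStmt) (hI : IdlStmt) (hS : SuppStmt)
    (hv : ∀ t i, Reg A (v t i)) (q : MvPolynomial (Fin 2 × (Fin n ⊕ ℕ)) ℂ) (i : Fin n)
    (j : Fin b) :
    ∃ B R : Fam b N, InI A (fun κ : Fin t × Fin n => v κ.1 κ.2) (fun κ => (e κ.2).1)
      ((∏ i' : Fin n, aeval (view (tm e ω A) (bef v t) ![i, i']) q) - B * R) ∧
      Vr {(e i).1, j} B ∧ (j ≠ (e i).1 → Vr {j}ᶜ R) ∧ Reg A B ∧ Reg A R := by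
  classical
  obtain ⟨s1, s2, s3, s4, s5⟩ := hS b N
  obtain ⟨h0, h1, h2, h3, h4⟩ := hI b n N (Fin t × Fin n) A (fun κ : Fin t × Fin n => v κ.1 κ.2)
    (fun κ => (e κ.2).1)
  obtain ⟨⟨Bs, hBs⟩, -⟩ := hR b n N A
  set y : Fin n → Fam b N := fun i' => aeval (zl A e ω (bef v t) ![i, i']) q with hy
  have h5 := fun i' : Fin n => h3 _ (view (tm e ω A) (bef v t) ![i, i'])
      (zl A e ω (bef v t) ![i, i']) (view_reg A e ω v t hR hv _)
      (zl_reg A e ω v t hR hL hv _) (view_diff A e ω v t hL hI _) q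
  have hyv : ∀ i', Vr {(e i).1, (e i').1} (y i') := by
    intro i'
    refine s2 _ _ _ q fun p => s1 _ _ _ ?_ (zl_vr A e ω (bef v t) hL _ p)
    intro c hc
    rw [mem_singleton] at hc
    subst hc
    obtain ⟨a, z⟩ := p
    fin_cases a
    · show (e i).1 ∈ _
      exact mem_insert_self _ _
    · show (e i').1 ∈ _
      exact mem_insert_of_mem (mem_singleton_self _)
  refine ⟨∏ i' with (e i').1 = j, y i', ∏ i' with ¬ (e i').1 = j, y i', ?_, ?_, ?_, ?_, ?_⟩
  · rw [Finset.prod_filter_mul_prod_filter_not]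
    exact (h4 _ (fun i' : Fin n => aeval (view (tm e ω A) (bef v t) ![i, i']) q) y
      (fun i' => (h5 i').2.1) (fun i' => (h5 i').2.2) (fun i' => (h5 i').1)).2.1
  · refine s3 _ _ _ _ fun i' hi' => ?_
    rw [mem_filter] at hi'
    have := hyv i'
    rwa [hi'.2] at this
  · intro hj
    refine s3 _ _ _ _ fun i' hi' => s1 _ _ _ ?_ (hyv i')
    rw [mem_filter] at hi'
    intro c hc
    rw [mem_insert, mem_singleton] at hc
    rw [mem_compl, mem_singleton]
    rintro rfl
    rcases hc with hc | hc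
    · exact hj hc
    · exact hi'.2 hc.symm
  · rw [← hBs]
    exact Subalgebra.prod_mem _ fun i' _ => (hBs _).mpr (h5 i').2.2
  · rw [← hBs]
    exact Subalgebra.prod_mem _ fun i' _ => (hBs _).mpr (h5 i').2.2

end

section rec

variable {b n : ℕ} {N : Type} (A : Fin b → N → Finset (Fin n)) {m : Fin b → ℕ}
  (e : Fin n ≃ (Σ j, Fin (m j))) (ω : Fin b → ℂ)

/-- the exponents of the generators -/
def Good (m : Fin b → ℕ) (j : Fin b) (a : Fin b →₀ ℕ) : Prop :=
  (∀ i, i ≠ j → a i = 0 ∨ a i = m i) ∧ (∃ i, i ≠ j ∧ a i ≠ 0) ∧ (∃ i, a i = 0)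

/-- the final class -/
noncomputable def Sp (v B : ℕ → Fin n → Fam b N) (s : ℕ) (a₀ : Fin b →₀ ℕ) :
    Submodule ℂ ((Fin b → N) → ℂ) :=
  Submodule.span ℂ {F | ∃ t < s, ∃ i, ∃ g, (g = v t i ∨ g = B t i) ∧ ∃ a a' G, a + a' = a₀ ∧
    Good m (e i).1 a ∧ G ∈ Fl A a' ∧ F = cf a g * G}

variable (v B : ℕ → Fin n → Fam b N)

theorem Sp_mono {s s' : ℕ} (h : s ≤ s') (a : Fin b →₀ ℕ) : Sp A e v B s a ≤ Sp A e v B s' a := by
  refine Submodule.span_mono ?_
  rintro F ⟨t, ht, r⟩
  exact ⟨t, ht.trans_le h, r⟩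

theorem Sp_mul (hF : FlStmt) {s : ℕ} {a a' : Fin b →₀ ℕ} {u G : (Fin b → N) → ℂ}
    (hu : u ∈ Sp A e v B s a) (hG : G ∈ Fl A a') : u * G ∈ Sp A e v B s (a + a') := by
  induction hu using Submodule.span_induction with
  | mem u hu =>
    obtain ⟨t, ht, i, g, hg, c, c', G', hc, hgood, hG', rfl⟩ := hu
    refine Submodule.subset_span ⟨t, ht, i, g, hg, c, c' + a', G' * G, ?_, hgood,
      hF b n N A c' a' G' G hG' hG, ?_⟩
    · rw [← hc, add_assoc]
    · rw [mul_assoc]
  | zero => rw [zero_mul]; exact Submodule.zero_mem _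
  | add u w _ _ hu hw => rw [add_mul]; exact Submodule.add_mem _ hu hw
  | smul z u _ hu => rw [smul_mul_assoc]; exact Submodule.smul_mem _ _ hu

/-- the recursion: the class of the registers before `t` is in the final class -/
theorem Cls_le (hF : FlStmt) (hdiv : ∀ t i (a : Fin b →₀ ℕ) j, j ≠ (e i).1 → ¬ m j ∣ a j →
      cf a (v t i) = 0) (t : ℕ)
    (ih : ∀ t' < t, ∀ i, ∀ a : Fin b →₀ ℕ, a.support = univ → (∀ j, a j ≤ m j) →
      cf a (v t' i) ∈ Sp A e v B (t' + 1) a)
    (a₀ : Fin b →₀ ℕ) (ha₀ : ∀ j, a₀ j ≤ m j) :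
    Cls A (fun κ : Fin t × Fin n => v κ.1 κ.2) (fun κ => (e κ.2).1) a₀ ≤ Sp A e v B t a₀ := by
  classical
  refine Submodule.span_le.mpr ?_
  rintro F ⟨⟨t', i⟩, a, a', G, haa, hnl, hG, rfl⟩
  have hle : ∀ j, a j ≤ m j := by
    intro j
    refine le_trans ?_ (ha₀ j)
    rw [← haa, Finsupp.add_apply]; omega
  by_cases h1 : ∀ j, j ≠ (e i).1 → a j = 0 ∨ a j = m j
  · by_cases h2 : ∃ j, a j = 0
    · refine Submodule.subset_span ⟨t', t'.2, i, _, Or.inl rfl, a, a', G, haa, ⟨h1, ?_, h2⟩, hG, rfl⟩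
      by_contra h3
      push Not at h3
      refine hnl fun j hj => ?_
      rw [mem_singleton]
      by_contra h4
      exact (Finsupp.mem_support_iff.mp hj) (h3 j h4)
    · push Not at h2
      have h3 : a.support = univ := by
        ext j; simp [h2 j]
      have h4 := ih t' t'.2 i a h3 hle
      rw [← haa]
      exact Sp_mono A e v B (Nat.succ_le_of_lt t'.2) _ (Sp_mul A e v B hF h4 hG)
  · push Not at h1
    obtain ⟨j, hj, h2, h3⟩ := h1
    have h4 : ¬ m j ∣ a j := by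
      intro h5
      have h6 := Nat.le_of_dvd (Nat.pos_of_ne_zero h2) h5
      exact h3 (le_antisymm (hle j) h6)
    have h5 : cf a ((fun κ : Fin t × Fin n => v κ.1 κ.2) (t', i)) = 0 := hdiv t' i a j hj h4
    rw [h5, zero_mul]
    exact Submodule.zero_mem _

/-- one gate -/
theorem gate_lem (hR : RegStmt) (hL : LocStmt) (hI : IdlStmt) (hS : SuppStmt) {k : ℕ}
    (hk : k + 1 < b) (hb : 3 ≤ b) (hv : ∀ t i, Reg A (v t i))
    (hdiv : ∀ t i (a : Fin b →₀ ℕ) j, j ≠ (e i).1 → ¬ m j ∣ a j → cf a (v t i) = 0)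
    (t : ℕ) (hg : Gate k (tm e ω A) (bef v t) (v t)) (i : Fin n) :
    ∃ Bt : Fam b N, Reg A Bt ∧ ∀ a : Fin b →₀ ℕ, a.support = univ → (∀ j, a j ≤ m j) →
      ∃ u w, cf a (v t i) = u + w ∧
        u ∈ Cls A (fun κ : Fin t × Fin n => v κ.1 κ.2) (fun κ => (e κ.2).1) a ∧
        w ∈ Submodule.span ℂ {F | ∃ c c' G, c + c' = a ∧ Good m (e i).1 c ∧ G ∈ Fl A c' ∧
          F = cf c Bt * G} := by
  classical
  obtain ⟨s1, s2, s3, s4, s5⟩ := hS b N
  rcases hg with ⟨q, hq⟩ | ⟨q, hq⟩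
  · obtain ⟨L, h1, h2⟩ := gate_sum A e ω v t hR hL hI hS hk hv q i
    refine ⟨0, ?_, fun a ha _ => ⟨cf a (v t i - L), 0, ?_, ?_, Submodule.zero_mem _⟩⟩
    · obtain ⟨⟨Bs, hBs⟩, -⟩ := hR b n N A
      rw [← hBs]; exact Bs.zero_mem
    · rw [cf_sub, h2 a ha, sub_zero, add_zero]
    · have h3 := h1 a
      rw [hq]; exact h3
  · obtain ⟨j, hj⟩ : ∃ j : Fin b, j ≠ (e i).1 := by
      haveI : Nontrivial (Fin b) := Fin.nontrivial_iff_two_le.mpr (by omega)
      exact exists_ne _
    obtain ⟨Bt, R, h1, h2, h3, h4, h5⟩ := gate_prod A e ω v t hR hL hI hS hv q i j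
    refine ⟨Bt, h4, fun a ha hle => ?_⟩
    by_cases hd : m j ∣ a j
    · refine ⟨cf a (v t i - Bt * R), cf a (Bt * R), ?_, ?_, ?_⟩
      · rw [cf_sub]; ring
      · have h6 := h1 a
        rw [hq]; exact h6
      · rw [s5]
        refine Submodule.sum_mem _ fun c hc => ?_
        rw [HasAntidiagonal.mem_antidiagonal] at hc
        by_cases hc1 : c.1.support ⊆ {(e i).1, j}
        · by_cases hc2 : c.2.support ⊆ {j}ᶜ
          · have haj : a j ≠ 0 := by
              have : j ∈ a.support := ha ▸ mem_univ j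
              exact Finsupp.mem_support_iff.mp this
            have haj2 : a j = m j :=
              le_antisymm (hle j) (Nat.le_of_dvd (Nat.pos_of_ne_zero haj) hd)
            have hc2j : c.2 j = 0 := by
              by_contra h
              have := hc2 (Finsupp.mem_support_iff.mpr h)
              rw [mem_compl, mem_singleton] at this
              exact this rfl
            have hc1j : c.1 j = m j := by
              rw [← haj2, ← hc, Finsupp.add_apply, hc2j, add_zero]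
            refine Submodule.subset_span ⟨c.1, c.2, cf c.2 R, hc, ⟨?_, ⟨j, hj, ?_⟩, ?_⟩, h5 c.2, rfl⟩
            · intro i' hi'
              by_cases hi2 : i' = j
              · right; rw [hi2]; exact hc1j
              · left
                by_contra h
                have := hc1 (Finsupp.mem_support_iff.mpr h)
                rw [mem_insert, mem_singleton] at this
                rcases this with h' | h'
                · exact hi' h'
                · exact hi2 h'
            · rw [hc1j, ← haj2]; exact haj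
            · by_contra h
              push Not at h
              have h6 : (univ : Finset (Fin b)) ⊆ {(e i).1, j} := fun i' _ =>
                hc1 (Finsupp.mem_support_iff.mpr (h i'))
              have h7 := card_le_card h6
              have h8 : ({(e i).1, j} : Finset (Fin b)).card ≤ 2 := card_le_two
              rw [card_univ, Fintype.card_fin] at h7
              omega
          · rw [s4 _ _ _ (h3 hj) hc2, mul_zero]; exact Submodule.zero_mem _
        · rw [s4 _ _ _ h2 hc1, zero_mul]; exact Submodule.zero_mem _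
    · exact ⟨0, 0, by rw [hdiv t i a j hj hd, add_zero], Submodule.zero_mem _, Submodule.zero_mem _⟩

/-- all registers -/
theorem reg_Sp (hF : FlStmt) (hR : RegStmt) (hL : LocStmt) (hI : IdlStmt) (hS : SuppStmt) {k : ℕ}
    (hk : k + 1 < b) (hb : 3 ≤ b) (hv : ∀ t i, Reg A (v t i))
    (hdiv : ∀ t i (a : Fin b →₀ ℕ) j, j ≠ (e i).1 → ¬ m j ∣ a j → cf a (v t i) = 0)
    (s : ℕ) (hg : ∀ t < s, Gate k (tm e ω A) (bef v t) (v t)) :
    ∃ B : ℕ → Fin n → Fam b N, (∀ t < s, ∀ i, Reg A (B t i)) ∧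
      ∀ t < s, ∀ i, ∀ a : Fin b →₀ ℕ, a.support = univ → (∀ j, a j ≤ m j) →
        cf a (v t i) ∈ Sp A e v B (t + 1) a := by
  classical
  have h := fun t (ht : t < s) i => gate_lem A e ω v hR hL hI hS hk hb hv hdiv t (hg t ht) i
  choose! B hB1 hB2 using h
  refine ⟨B, hB1, ?_⟩
  intro t
  induction t using Nat.strong_induction_on with
  | _ t ih =>
    intro ht i a ha hle
    obtain ⟨u, w, h1, h2, h3⟩ := hB2 t ht i a ha hle
    rw [h1]
    refine Submodule.add_mem _ ?_ ?_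
    · exact Sp_mono A e v B (Nat.le_succ t) _ (Cls_le A e v B hF hdiv t
        (fun t' ht' i' a' ha' hle' => ih t' ht' (ht'.trans ht) i' a' ha' hle') a hle h2)
    · refine (Submodule.span_le.mpr ?_) h3
      rintro F ⟨c, c', G, hc, hgood, hG, rfl⟩
      exact Submodule.subset_span ⟨t, Nat.lt_succ_self t, i, _, Or.inr rfl, c, c', G, hc, hgood,
        hG, rfl⟩

end rec

end Pool.Agent.W941.MG
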