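import Mathlib
import Pool.Agent.W941.MG.Rec

/-! Project MG: the lower bound from a set family. -/

namespace Pool.Agent.W941.MG

open MvPolynomial Finset

set_option autoImplicit false
set_option linter.unusedSectionVars false
set_option linter.unusedVariables false

theorem aeval_sub' {σ A : Type} [CommSemiring A] [Algebra ℂ A] (B : Subalgebra ℂ A) (v : σ → A)
    (hv : ∀ i, v i ∈ B) (q : MvPolynomial σ ℂ) : aeval v q ∈ B := by
  induction q using MvPolynomial.induction_on with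
  | C a => rw [aeval_C]; exact B.algebraMap_mem a
  | add p q hp hq => rw [map_add]; exact B.add_mem hp hq
  | mul_X p i hp => rw [map_mul, aeval_X]; exact B.mul_mem hp (hv i)

theorem aeval_aeval' {σ τ A : Type} [CommSemiring A] [Algebra ℂ A] (g : τ → A)
    (h : σ → MvPolynomial τ ℂ) (q : MvPolynomial σ ℂ) :
    aeval g (aeval h q) = aeval (fun i => aeval g (h i)) q := by
  induction q using MvPolynomial.induction_on with
  | C a => simp
  | add p q hp hq => rw [map_add, map_add, map_add, hp, hq]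
  | mul_X p i hp => rw [map_mul, map_mul, map_mul, hp, aeval_X, aeval_X]

/-- the exponents of a generator -/
noncomputable def expo {b : ℕ} (m : Fin b → ℕ) (j : Fin b) (S : Finset (Fin b)) (c : ℕ) :
    Fin b →₀ ℕ :=
  Finsupp.equivFunOnFinite.symm fun i => if i = j then c else if i ∈ S then m i else 0

theorem expo_apply {b : ℕ} (m : Fin b → ℕ) (j : Fin b) (S : Finset (Fin b)) (c : ℕ) (i : Fin b) :
    expo m j S c i = if i = j then c else if i ∈ S then m i else 0 := by
  rw [expo, Finsupp.equivFunOnFinite_symm_apply_apply]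

theorem expo_of_good {b : ℕ} {m : Fin b → ℕ} {j : Fin b} {a : Fin b →₀ ℕ} (h : Good m j a) :
    expo m j a.support (a j) = a := by
  ext i
  rw [expo_apply]
  split_ifs with h1 h2
  · rw [h1]
  · rcases h.1 i h1 with h3 | h3
    · exact absurd h3 (Finsupp.mem_support_iff.mp h2)
    · exact h3.symm
  · exact (Finsupp.notMem_support_iff.mp h2).symm

theorem lower_fam (hF : FlStmt) (hR : RegStmt) (hL : LocStmt) (hI : IdlStmt) (hS : SuppStmt)
    (hV : DivStmt) (hG : DiagStmt) (hK : RankStmt) (hQ : SeqStmt) (hE : EqvStmt)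
    {n k : ℕ} (hk : 1 ≤ k) {N : Type} [Fintype N] (m : Fin (k + 2) → ℕ)
    (hm : ∀ j, 0 < m j) (hsum : ∑ j, m j = n) (A : Fin (k + 2) → N → Finset (Fin n))
    (hA : ∀ j y, (A j y).card = m j)
    (hdiag : ∀ x : Fin (k + 2) → N, (∀ i j, i ≠ j → Disjoint (A i (x i)) (A j (x j))) ↔
      ∀ i j, x i = x j) (D : ℕ)
    (hD : ∀ i, (univ.filter fun S : Finset (Fin n) => S.card ≤ m i / 2).card ≤ D)
    (l : List (Fin n → MvPolynomial (Fin n × Fin n) ℂ)) (hl : Prog n k l) (P : MvPolynomial ℕ ℂ)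
    (i0 : Fin n) (hP : perm n = aeval (fun t => l.getD t 0 i0) P) :
    Fintype.card N ≤ (l.length * (n * (2 * (2 ^ (k + 2) * (n + 1))))) * D := by
  classical
  have hcard : Fintype.card (Fin n) = Fintype.card (Σ j, Fin (m j)) := by
    simp [Fintype.card_sigma, hsum]
  obtain ⟨e⟩ : Nonempty (Fin n ≃ Σ j, Fin (m j)) := ⟨Fintype.equivOfCardEq hcard⟩
  obtain ⟨ω, hprim⟩ : ∃ ω : Fin (k + 2) → ℂ, ∀ j, IsPrimitiveRoot (ω j) (m j) :=
    ⟨fun j => Complex.exp (2 * Real.pi * Complex.I / m j), fun j =>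
      Complex.isPrimitiveRoot_exp (m j) (Nat.pos_iff_ne_zero.mp (hm j))⟩
  have hω0 : ∀ j, ω j ≠ 0 := fun j => (hprim j).ne_zero (Nat.pos_iff_ne_zero.mp (hm j))
  obtain ⟨M, hM⟩ : ∃ M : Fin (k + 2) →₀ ℕ, ∀ j, M j = m j :=
    ⟨Finsupp.equivFunOnFinite.symm m, fun j => by rw [Finsupp.equivFunOnFinite_symm_apply_apply]⟩
  have hMs : M.support = univ := by
    ext j
    simp only [Finsupp.mem_support_iff, mem_univ, iff_true, hM]
    exact Nat.pos_iff_ne_zero.mp (hm j)
  have hmn : ∀ j, m j ≤ n := fun j => by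
    rw [← hsum]; exact Finset.single_le_sum (f := m) (fun i _ => Nat.zero_le _) (mem_univ j)
  obtain ⟨s, hs⟩ : ∃ s, s = l.length := ⟨_, rfl⟩
  rw [← hs]
  obtain ⟨v, hvd⟩ : ∃ v : ℕ → Fin n → Fam (k + 2) N, ∀ t i, v t i =
      aeval (fun p : Fin n × Fin n => tm e ω A p.1 p.2) (l.getD t 0 i) := ⟨_, fun _ _ => rfl⟩
  have hv : ∀ t i, Reg A (v t i) := by
    intro t i
    have h2 := (hR (k + 2) n N A).2
    obtain ⟨h0, -, -, h3, -⟩ := hI (k + 2) n N (Fin 0 × Fin n) A
      (fun _ => (0 : Fam (k + 2) N)) (fun κ => (e κ.2).1)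
    have h5 := (h3 (Fin n × Fin n) (fun p => tm e ω A p.1 p.2) (fun p => tm e ω A p.1 p.2)
      (fun p => h2 m e ω p.1 p.2) (fun p => h2 m e ω p.1 p.2)
      (fun p => by rw [sub_self]; exact h0) (l.getD t 0 i)).2.1
    rw [hvd]
    exact h5
  have hdiv : ∀ t i (a : Fin (k + 2) →₀ ℕ) j, j ≠ (e i).1 → ¬ m j ∣ a j → cf a (v t i) = 0 := by
    intro t i a j hj hd
    rw [hvd]
    exact hV (k + 2) n N A m e ω hm hprim (l.getD t 0) (fun π i => hE n k l hl t π i) i a j hj hd
  have hgate : ∀ t < s, Gate k (tm e ω A) (bef v t) (v t) := by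
    intro t ht
    rw [hs] at ht
    have h := hQ n k l hl (Fam (k + 2) N) (tm e ω A) t ht
    have e1 : (fun t' i => if t' < t then
        aeval (fun p : Fin n × Fin n => tm e ω A p.1 p.2) (l.getD t' 0 i) else 0) = bef v t := by
      funext t' i
      unfold bef
      rw [hvd]
    have e2 : (fun i => aeval (fun p : Fin n × Fin n => tm e ω A p.1 p.2) (l.getD t 0 i)) =
        v t := by
      funext i
      rw [hvd]
    rw [e1, e2] at h
    exact h
  have hv0 : ∀ t, s ≤ t → ∀ i, v t i = 0 := by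
    intro t ht i
    rw [hs] at ht
    rw [hvd, List.getD_eq_default _ _ ht, Pi.zero_apply, map_zero]
  obtain ⟨B, hB1, hB2⟩ := reg_Sp A e ω v hF hR hL hI hS (k := k) (by omega) (by omega) hv hdiv s
    hgate
  obtain ⟨s1, s2, s3, s4, s5⟩ := hS (k + 2) N
  obtain ⟨h0, h1, h2, h3, h4⟩ := hI (k + 2) n N (Fin s × Fin n) A
    (fun κ : Fin s × Fin n => v κ.1 κ.2) (fun κ => (e κ.2).1)
  obtain ⟨f, hf⟩ : ∃ f : (Fin (k + 2) → N) → ℂ, f =
    cf M (aeval (fun p : Fin n × Fin n => tm e ω A p.1 p.2) (perm n)) := ⟨_, rfl⟩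
  have hfs : f ∈ Sp A e v B s M := by
    have e1 : aeval (fun p : Fin n × Fin n => tm e ω A p.1 p.2) (perm n) =
        aeval (fun t => v t i0) P := by
      rw [hP, aeval_aeval']
      congr 1
      congr 1
      funext t
      rw [hvd]
    have e2 := (h3 ℕ (fun t => v t i0) (fun t => loc (e i0).1 (v t i0)) (fun t => hv t i0)
      (fun t => reg_loc A hL _ _ (hv t i0)) (fun t => by
        by_cases ht : t < s
        · exact locdiff A hL (fun κ : Fin s × Fin n => v κ.1 κ.2) (fun κ => (e κ.2).1)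
            (⟨t, ht⟩, i0)
        · show InI A _ _ (v t i0 - loc (e i0).1 (v t i0))
          rw [hv0 t (not_lt.mp ht) i0, loc_zero, sub_self]; exact h0) P).1
    have e3 : cf M (aeval (fun t => loc (e i0).1 (v t i0)) P) = 0 := by
      refine s4 {(e i0).1} _ M (s2 _ _ _ P fun t => (hL (k + 2) n N _).2.1 _) ?_
      rw [hMs]
      intro h
      have h5 := card_le_card h
      rw [card_univ, Fintype.card_fin, card_singleton] at h5
      omega
    have e4 : f = cf M (aeval (fun t => v t i0) P - aeval (fun t => loc (e i0).1 (v t i0)) P) := by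
      rw [cf_sub, e3, sub_zero, hf, e1]
    rw [e4]
    exact Cls_le A e v B hF hdiv s hB2 M (fun j => (hM j).le) (e2 M)
  -- the generators
  let U := Fin s × Fin n × Bool × Finset (Fin (k + 2)) × Fin (n + 1)
  let ex : U → (Fin (k + 2) →₀ ℕ) := fun u => expo m (e u.2.1).1 u.2.2.2.1 (u.2.2.2.2 : ℕ)
  let K := {u : U // Good m (e u.2.1).1 (ex u) ∧ ∀ j, ex u j ≤ m j}
  have hcardK : Fintype.card K ≤ s * (n * (2 * (2 ^ (k + 2) * (n + 1)))) := by
    refine (Fintype.card_subtype_le _).trans ?_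
    simp only [U, Fintype.card_prod, Fintype.card_fin, Fintype.card_bool, Fintype.card_finset]
    exact le_refl _
  refine le_trans ?_ (Nat.mul_le_mul_right D hcardK)
  refine hK (k + 1) n N K A M D f (fun κ => (e κ.1.2.1).1) (fun κ => ex κ.1)
    (fun κ => M - ex κ.1)
    (fun κ => cf (ex κ.1) (if κ.1.2.2.1 then v κ.1.1 κ.1.2.1 else B κ.1.1 κ.1.2.1))
    ?_ ?_ ?_ ?_ ?_ ?_ ?_ ?_
  · intro x
    rw [hf, hG (k + 2) n N A m e ω M hM hω0 hA x]
    exact hdiag x
  · intro i; rw [hM]; exact hD i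
  · intro κ
    refine add_tsub_cancel_of_le ?_
    intro j
    exact (κ.2.2 j).trans (hM j).ge
  · intro κ
    show cf (ex κ.1) (if κ.1.2.2.1 then v κ.1.1 κ.1.2.1 else B κ.1.1 κ.1.2.1) ∈ Fl A (ex κ.1)
    split_ifs
    · exact hv _ _ _
    · exact hB1 _ κ.1.1.2 _ _
  · intro κ i hi
    rcases κ.2.1.1 i hi with h | h
    · exact Or.inl h
    · right
      show (M - ex κ.1) i = 0
      rw [Finsupp.tsub_apply, hM, h, Nat.sub_self]
  · intro κ
    exact κ.2.1.2.1
  · intro κ
    exact κ.2.1.2.2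
  · refine (Submodule.span_le.mpr ?_) hfs
    rintro F ⟨t, ht, i, g, hg, a, a', G, haa, hgood, hGa, rfl⟩
    have hle : ∀ j, a j ≤ m j := by
      intro j
      rw [← hM j, ← haa, Finsupp.add_apply]; omega
    have haj : a (e i).1 < n + 1 := Nat.lt_succ_of_le ((hle _).trans (hmn _))
    have ha' : a' = M - a := by
      rw [← haa]; exact (add_tsub_cancel_left a a').symm
    rcases hg with rfl | rfl
    · let u : U := (⟨t, ht⟩, i, true, a.support, ⟨a (e i).1, haj⟩)
      have hu : ex u = a := expo_of_good hgood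
      refine Submodule.subset_span ⟨⟨u, by rw [hu]; exact hgood, by rw [hu]; exact hle⟩, G, ?_, ?_⟩
      · show G ∈ Fl A (M - ex u)
        rw [hu, ← ha']; exact hGa
      · show cf a (v t i) * G = cf (ex u) (if u.2.2.1 = true then v u.1 u.2.1 else B u.1 u.2.1) * G
        rw [hu]; rfl
    · let u : U := (⟨t, ht⟩, i, false, a.support, ⟨a (e i).1, haj⟩)
      have hu : ex u = a := expo_of_good hgood
      refine Submodule.subset_span ⟨⟨u, by rw [hu]; exact hgood, by rw [hu]; exact hle⟩, G, ?_, ?_⟩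
      · show G ∈ Fl A (M - ex u)
        rw [hu, ← ha']; exact hGa
      · show cf a (B t i) * G = cf (ex u) (if u.2.2.1 = true then v u.1 u.2.1 else B u.1 u.2.1) * G
        rw [hu]; rfl

end Pool.Agent.W941.MG
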