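import Mathlib
import Pool.Agent.W941.MG.Main
import Pool.Agent.W52.MG.FL
import Pool.Agent.W637.MG.REG
import Pool.Agent.W641.MG.Loc
import Pool.Agent.W578.MG.IDL
import Pool.Agent.W933.MG.Div
import Pool.Agent.W395.MG.Supp
import Pool.Agent.W557.MG.Diag
import Pool.Agent.W125.MG.Rank
import Pool.Agent.W639.MG.SEQ
import Pool.Agent.W52.MG.EQV
import Pool.Agent.W507.MG.Avg
import Pool.Agent.W85.MG.KER
import Pool.Agent.W699.MG.PAIRS
import Pool.Agent.W212.MG.Sel
import Pool.Agent.W119.MG.MULT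
import Pool.Agent.W18.MG.Big
import Pool.Agent.W370.MG.FAM
import Pool.Agent.W82.MG.Fin

/-! Project MG: the exponential lower bound. -/

namespace Pool.Agent.W941.MG

open MvPolynomial Finset

set_option autoImplicit false
set_option linter.unusedSectionVars false
set_option linter.unusedVariables false

theorem card_small (n h : ℕ) :
    ((univ : Finset (Finset (Fin n))).filter fun S => S.card ≤ h).card =
      ∑ i ∈ range (h + 1), n.choose i := by
  classical
  have h1 : ((univ : Finset (Finset (Fin n))).filter fun S => S.card ≤ h) =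
      (range (h + 1)).biUnion fun i => powersetCard i (univ : Finset (Fin n)) := by
    ext S
    simp only [mem_filter, mem_univ, true_and, mem_biUnion, mem_range, mem_powersetCard,
      subset_univ]
    constructor
    · intro hS; exact ⟨S.card, by omega, rfl⟩
    · rintro ⟨i, hi, rfl⟩; omega
  rw [h1, card_biUnion]
  · refine Finset.sum_congr rfl fun i _ => ?_
    rw [card_powersetCard, card_univ, Fintype.card_fin]
  · intro i _ j _ hij
    rw [Function.onFun, Finset.disjoint_left]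
    intro S hS hS'
    rw [mem_powersetCard] at hS hS'
    exact hij (hS.2.symm.trans hS'.2)

theorem bigDiag : BigDiagStmt :=
  Pool.Agent.W18.MG.big Pool.Agent.W507.MG.avg (Pool.Agent.W699.MG.pairs Pool.Agent.W85.MG.ker)
    (fun K m V _ _ B hK hB hf => Pool.Agent.W212.MG.sel1 K m hK V B hB hf)
    Pool.Agent.W119.MG.mult

/-- Message passing programs for the permanent are exponentially long. -/
theorem lower (k : ℕ) (hk : 1 ≤ k) (δ : ℝ) (hδ : 0 < δ) : ∃ n₀ : ℕ, ∀ n ≥ n₀,
    ∀ l : List (Fin n → MvPolynomial (Fin n × Fin n) ℂ), Prog n k l →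
    ∀ (P : MvPolynomial ℕ ℂ) (i : Fin n), perm n = aeval (fun t => l.getD t 0 i) P →
      (2 : ℝ) ^ (-δ * n) * ((k + 1 : ℕ) : ℝ) ^ ((n : ℝ) / (2 * ((k + 1 : ℕ) + 1))) ≤
        (l.length : ℝ) := by
  classical
  obtain ⟨n₁, hn₁⟩ := Pool.Agent.W82.MG.fin_stmt (k + 1) (by omega) δ hδ
  obtain ⟨m₀, hm₀⟩ := bigDiag (k + 1) (by omega) (δ / 2) (by positivity)
  refine ⟨max n₁ ((k + 2) * (m₀ + 1)), fun n hn l hl P i0 hP => ?_⟩
  have hn1 : n₁ ≤ n := (le_max_left _ _).trans hn
  have hn2 : (k + 2) * (m₀ + 1) ≤ n := (le_max_right _ _).trans hn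
  obtain ⟨m, hm⟩ : ∃ m, m = n / (k + 1 + 1) := ⟨_, rfl⟩
  have hmm : m₀ + 1 ≤ m := by
    rw [hm]
    exact (Nat.le_div_iff_mul_le (by omega)).mpr (by
      calc (m₀ + 1) * (k + 1 + 1) = (k + 2) * (m₀ + 1) := by ring
        _ ≤ n := hn2)
  obtain ⟨I, hI, hIc⟩ := hm₀ m (by omega)
  have hnr : n = (k + 1 + 1) * m + n % (k + 1 + 1) := by
    rw [hm]; exact (Nat.div_add_mod n (k + 1 + 1)).symm
  have hr : n % (k + 1 + 1) ≤ k + 1 := by
    have := Nat.mod_lt n (show 0 < k + 1 + 1 by omega)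
    omega
  obtain ⟨N, hN, M, A, h1, h2, h3, h4, h5⟩ := Pool.Agent.W370.MG.fam (k + 1) m (n % (k + 1 + 1)) n
    I (by omega) (by omega) hI hr hnr
  have hpos : ∀ j, 0 < M j := fun j => by
    rcases h3 j with h | h <;> omega
  have hmain := lower_fam Pool.Agent.W52.MG.fl Pool.Agent.W637.MG.reg Pool.Agent.W641.MG.loc_stmt
    (Pool.Agent.W578.MG.idl Pool.Agent.W52.MG.fl Pool.Agent.W637.MG.reg) Pool.Agent.W395.MG.supp
    Pool.Agent.W933.MG.div_stmt Pool.Agent.W557.MG.diag Pool.Agent.W125.MG.rank_stmt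
    Pool.Agent.W639.MG.seq Pool.Agent.W52.MG.eqv hk M hpos h2 A h4 h5
    (∑ i ∈ range ((m + 1) / 2 + 1), n.choose i) (fun i => by
      rw [← card_small]
      refine card_le_card fun S hS => ?_
      rw [mem_filter] at hS ⊢
      refine ⟨hS.1, hS.2.trans (Nat.div_le_div_right ?_)⟩
      rcases h3 i with h | h <;> omega) l hl P i0 hP
  refine hn₁ n hn1 m hm (Fintype.card N) (∑ i ∈ range ((m + 1) / 2 + 1), n.choose i) l.length
    ?_ ?_ ?_
  · rw [h1]; exact hIc
  · push_cast; rfl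
  · refine hmain.trans (Nat.mul_le_mul_right _ ?_)
    have hn0 : 1 ≤ n := by
      have : 1 ≤ (k + 2) * (m₀ + 1) := Nat.mul_pos (by omega) (by omega)
      omega
    calc l.length * (n * (2 * (2 ^ (k + 2) * (n + 1)))) ≤
        l.length * (n * (2 * (2 ^ (k + 2) * (2 * n)))) := by
          refine Nat.mul_le_mul_left _ (Nat.mul_le_mul_left _ (Nat.mul_le_mul_left _
            (Nat.mul_le_mul_left _ (by omega))))
      _ = 2 ^ (k + 1 + 3) * n ^ 2 * l.length := by ring

end Pool.Agent.W941.MG
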