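import Mathlib
import Pool.Agent.W941.MG.Stm

/-! Project MG: the square of the determinant has a short program. -/

namespace Pool.Agent.W941.MG

open MvPolynomial Finset

set_option autoImplicit false

/-- The generic determinant. -/
noncomputable def gdet (n : ℕ) : MvPolynomial (Fin n × Fin n) ℂ :=
  Matrix.det (Matrix.of fun i j => X (i, j))

theorem sum_first {R : Type} [CommRing R] (n k : ℕ) (f : Fin n → R) :
    ∑ τ : Fin (k + 1) → Fin n, f (τ 0) = (n ^ k : ℕ) * ∑ r, f r := by
  rw [← (Fin.consEquiv (fun _ : Fin (k + 1) => Fin n)).sum_comp, Fintype.sum_prod_type,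
    Finset.mul_sum]
  refine Finset.sum_congr rfl fun a _ => ?_
  simp only [Fin.consEquiv_apply, Fin.cons_zero, Finset.sum_const, Finset.card_univ,
    Fintype.card_pi, Fintype.card_fin, Finset.prod_const, nsmul_eq_mul]

/-- registers holding the sums over all rows of given polynomials -/
theorem prog_sums (n k : ℕ) (hn : 1 ≤ n) (hk : 1 ≤ k) (L : List (MvPolynomial (Fin n) ℂ)) :
    Prog n k (L.map fun r => fun _ : Fin n => ∑ i : Fin n,
      MvPolynomial.aeval (fun j => (X (i, j) : MvPolynomial (Fin n × Fin n) ℂ)) r) := by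
  induction L using List.reverseRecOn with
  | nil => exact Prog.nil
  | append_singleton L r ih =>
    rw [List.map_append, List.map_singleton]
    obtain ⟨k, rfl⟩ : ∃ k', k = k' + 1 := ⟨k - 1, by omega⟩
    have h := Prog.sum _ (C ((n : ℂ) ^ k)⁻¹ *
      rename (fun c => ((1 : Fin (k + 1 + 1)), Sum.inl c)) r) ih
    convert h using 4 with i
    have h1 : ∀ τ : Fin (k + 1) → Fin n, aeval (view
        (fun i c => (X (i, c) : MvPolynomial (Fin n × Fin n) ℂ))
        (fun t => (L.map fun r => fun _ : Fin n => ∑ i : Fin n,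
      MvPolynomial.aeval (fun j => (X (i, j) : MvPolynomial (Fin n × Fin n) ℂ)) r).getD t 0)
        (rows i τ)) (C ((n : ℂ) ^ k)⁻¹ *
      rename (fun c => ((1 : Fin (k + 1 + 1)), Sum.inl c)) r) = C ((n : ℂ) ^ k)⁻¹ *
        (fun i : Fin n => MvPolynomial.aeval
          (fun j => (X (i, j) : MvPolynomial (Fin n × Fin n) ℂ)) r) (τ 0) := by
      intro τ
      rw [map_mul, aeval_rename, ← algebraMap_eq, AlgHom.commutes, algebraMap_eq]
      rfl
    rw [Finset.sum_congr rfl fun τ _ => h1 τ, ← Finset.mul_sum,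
      sum_first n k (fun i : Fin n => MvPolynomial.aeval
          (fun j => (X (i, j) : MvPolynomial (Fin n × Fin n) ℂ)) r), ← mul_assoc]
    have h2 : (C ((n : ℂ) ^ k)⁻¹ * ((n ^ k : ℕ) : MvPolynomial (Fin n × Fin n) ℂ)) = 1 := by
      rw [← map_natCast (C : ℂ →+* MvPolynomial (Fin n × Fin n) ℂ), ← map_mul]
      push_cast
      rw [inv_mul_cancel₀ (pow_ne_zero _ (by exact_mod_cast (by omega : n ≠ 0))), map_one]
    rw [h2, one_mul]

theorem mem_getD {α : Type} (L : List α) (a d : α) (h : a ∈ L) : ∃ k, L.getD k d = a := by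
  obtain ⟨k, hk, e⟩ := List.getElem_of_mem h
  exact ⟨k, by rw [List.getD_eq_getElem _ _ hk, e]⟩

theorem det_sq (n k : ℕ) (hn : 1 ≤ n) (hk : 1 ≤ k) :
    ∃ (l : List (Fin n → MvPolynomial (Fin n × Fin n) ℂ)) (P : MvPolynomial ℕ ℂ),
      Prog n k l ∧ 2 * l.length = n * (n + 1) ∧
        ∀ i, gdet n ^ 2 = MvPolynomial.aeval (fun t => l.getD t 0 i) P := by
  classical
  let J : Finset (Σ _ : Fin n, Fin n) := univ.sigma fun k : Fin n => Finset.Iic k
  let L : List (MvPolynomial (Fin n) ℂ) := J.toList.map fun p => X p.1 * X p.2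
  let l0 := L.map fun r => fun _ : Fin n => ∑ i : Fin n,
    (MvPolynomial.aeval (fun j => (X (i, j) : MvPolynomial (Fin n × Fin n) ℂ)) r)
  have hl0 : Prog n k l0 := prog_sums n k hn hk L
  have hlen : 2 * l0.length = n * (n + 1) := by
    simp only [l0, L, List.length_map, Finset.length_toList, J]
    rw [card_sigma]
    simp only [Fin.card_Iic]
    rw [Fin.sum_univ_eq_sum_range (fun k => k + 1) n]
    clear l0 L J hl0 hn
    induction n with
    | zero => rfl
    | succ n ih => rw [Finset.sum_range_succ, mul_add, ih]; ring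
  have hF0 : ∀ a b : Fin n, b ≤ a → ∃ k, l0.getD k 0 =
      fun _ => ∑ i : Fin n, X (i, a) * X (i, b) := by
    intro a b hab
    have h1 : (fun _ : Fin n => ∑ i : Fin n, (MvPolynomial.aeval (fun j =>
        (X (i, j) : MvPolynomial (Fin n × Fin n) ℂ)) (X a * X b : MvPolynomial (Fin n) ℂ))) ∈
        l0 := by
      refine List.mem_map.2 ⟨X a * X b, List.mem_map.2 ⟨⟨a, b⟩, ?_, rfl⟩, rfl⟩
      rw [Finset.mem_toList]
      exact mem_sigma.2 ⟨mem_univ _, mem_Iic.2 hab⟩
    obtain ⟨k, hk⟩ := mem_getD l0 _ 0 h1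
    refine ⟨k, ?_⟩
    rw [hk]
    funext _
    refine Finset.sum_congr rfl fun i _ => ?_
    rw [map_mul, aeval_X, aeval_X]
  have hF : ∀ a b : Fin n, ∃ k, l0.getD k 0 = fun _ => ∑ i : Fin n, X (i, a) * X (i, b) := by
    intro a b
    rcases le_total b a with h | h
    · exact hF0 a b h
    · obtain ⟨k, hk⟩ := hF0 b a h
      refine ⟨k, hk.trans ?_⟩
      funext _
      exact Finset.sum_congr rfl fun i _ =>
        mul_comm (X (i, b) : MvPolynomial (Fin n × Fin n) ℂ) (X (i, a))
  choose idx hidx using hF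
  refine ⟨l0, Matrix.det (Matrix.of fun a b => X (idx a b)), hl0, hlen, fun i0 => ?_⟩
  rw [AlgHom.map_det]
  unfold gdet
  rw [pow_two]
  nth_rewrite 1 [← Matrix.det_transpose]
  rw [← Matrix.det_mul]
  congr 1
  ext1 a b
  rw [Matrix.mul_apply]
  simp only [Matrix.transpose_apply, Matrix.of_apply, AlgHom.mapMatrix_apply, Matrix.map_apply,
    aeval_X]
  rw [hidx a b]

end Pool.Agent.W941.MG
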