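import Mathlib
import Pool.Agent.W941.MG.DetSq
import Pool.Agent.W941.VP.Pool5

/-! Project MG: pooling programs are message passing programs; the upper bound. -/

namespace Pool.Agent.W941.MG

open MvPolynomial Finset

set_option autoImplicit false

theorem prog_step (n k : ℕ) (hn : 1 ≤ n) (hk : 1 ≤ k)
    (l : List (Fin n → MvPolynomial (Fin n × Fin n) ℂ)) (hl : Prog n k l)
    (q : MvPolynomial (Fin n ⊕ ℕ) ℂ) :
    Prog n k (l ++ [fun _ : Fin n => ∑ i : Fin n,
      MvPolynomial.aeval (Sum.elim (fun j => (X (i, j) : MvPolynomial (Fin n × Fin n) ℂ))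
        fun t => l.getD t 0 i) q]) := by
  obtain ⟨k, rfl⟩ : ∃ k', k = k' + 1 := ⟨k - 1, by omega⟩
  have h := Prog.sum l (C ((n : ℂ) ^ k)⁻¹ *
    rename (fun c => ((1 : Fin (k + 1 + 1)), c)) q) hl
  convert h using 4 with i
  have h1 : ∀ τ : Fin (k + 1) → Fin n, aeval (view
      (fun i c => (X (i, c) : MvPolynomial (Fin n × Fin n) ℂ))
      (fun t => l.getD t 0)
      (rows i τ)) (C ((n : ℂ) ^ k)⁻¹ *
    rename (fun c => ((1 : Fin (k + 1 + 1)), c)) q) = C ((n : ℂ) ^ k)⁻¹ *
      (fun i : Fin n => MvPolynomial.aeval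
        (Sum.elim (fun j => (X (i, j) : MvPolynomial (Fin n × Fin n) ℂ))
        fun t => l.getD t 0 i) q) (τ 0) := by
    intro τ
    rw [map_mul, aeval_rename, ← algebraMap_eq, AlgHom.commutes, algebraMap_eq]
    congr 2
    congr 1
    funext c
    rcases c with c | c <;> rfl
  rw [Finset.sum_congr rfl fun τ _ => h1 τ, ← Finset.mul_sum,
    sum_first n k (fun i : Fin n => MvPolynomial.aeval
        (Sum.elim (fun j => (X (i, j) : MvPolynomial (Fin n × Fin n) ℂ))
        fun t => l.getD t 0 i) q), ← mul_assoc]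
  have h2 : (C ((n : ℂ) ^ k)⁻¹ * ((n ^ k : ℕ) : MvPolynomial (Fin n × Fin n) ℂ)) = 1 := by
    rw [← map_natCast (C : ℂ →+* MvPolynomial (Fin n × Fin n) ℂ), ← map_mul]
    push_cast
    rw [inv_mul_cancel₀ (pow_ne_zero _ (by exact_mod_cast (by omega : n ≠ 0))), map_one]
  rw [h2, one_mul]

/-- index reversal -/
def rv (m t : ℕ) : ℕ := if t < m then m - 1 - t else t

theorem getD_rv {α : Type} (l : List α) (d : α) (t : ℕ) :
    l.reverse.getD (rv l.length t) d = l.getD t d := by
  unfold rv
  split_ifs with h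
  · rw [List.getD_eq_getElem _ _ (by simp; omega), List.getD_eq_getElem _ _ h,
      List.getElem_reverse]
    congr 1
    omega
  · rw [List.getD_eq_default _ _ (by simp; omega), List.getD_eq_default _ _ (by omega)]

theorem pooled_prog (n k : ℕ) (hn : 1 ≤ n) (hk : 1 ≤ k)
    (l : List (MvPolynomial (Fin n × Fin n) ℂ)) (hl : Pool.Agent.W941.VP.PL.Pooled n l) :
    Prog n k (l.reverse.map fun p => fun _ : Fin n => p) := by
  induction hl with
  | nil => exact Prog.nil
  | cons l q hl ih =>
    have h := prog_step n k hn hk _ ih (rename (Sum.map id (rv l.length)) q)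
    rw [List.reverse_cons, List.map_append, List.map_singleton]
    convert h using 4 with i
    refine Finset.sum_congr rfl fun r _ => ?_
    rw [aeval_rename]
    congr 2
    funext c
    rcases c with c | c
    · rfl
    · simp only [Sum.elim_inr, Function.comp_apply, Sum.map_inr]
      rw [← getD_rv l 0 c]
      have h3 : (List.map (fun p => fun _ : Fin n => p) l.reverse).getD (rv l.length c) 0 =
          (fun _ : Fin n => l.reverse.getD (rv l.length c) 0) := by
        by_cases hc : rv l.length c < l.length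
        · rw [List.getD_eq_getElem _ _ (by simpa using hc),
            List.getD_eq_getElem _ _ (by simpa using hc), List.getElem_map]
        · rw [List.getD_eq_default _ _ (by simpa using hc),
            List.getD_eq_default _ _ (by simpa using hc)]
          rfl
      rw [h3]

/-- the permanent has a program with `2 ^ (n - 1)` steps -/
theorem upper (n k : ℕ) (hn : 1 ≤ n) (hk : 1 ≤ k) :
    ∃ l : List (Fin n → MvPolynomial (Fin n × Fin n) ℂ), Prog n k l ∧ l.length = 2 ^ (n - 1) ∧
      ∀ i, l.getD (2 ^ (n - 1) - 1) 0 i = perm n := by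
  obtain ⟨l, hl, hlen, h0⟩ := Pool.Agent.W941.VP.PL.upper n hn
  refine ⟨_, pooled_prog n k hn hk l hl, by simpa using hlen, fun i => ?_⟩
  have hpos : 0 < 2 ^ (n - 1) := by positivity
  rw [List.getD_eq_getElem _ _ (by simp; omega), List.getElem_map, List.getElem_reverse]
  rw [List.getD_eq_getElem _ _ (by omega)] at h0
  simp only [hlen]
  have : 2 ^ (n - 1) - 1 - (2 ^ (n - 1) - 1) = 0 := by omega
  simp only [this]
  exact h0

end Pool.Agent.W941.MG
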